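import Pool.Agent.U36.TS.Stm

/-!
# Project TS, package KEY
-/

set_option autoImplicit false

namespace Pool.Agent.U36.TS

theorem key559_pow_fix {M : Type} [Field M] (T : M ≃+* M) (x : M) (h : T x = x) (n : ℕ) :
    (T ^ n) x = x := by
  induction n with
  | zero => rfl
  | succ n ih =>
    rw [pow_succ]
    show (T ^ n) (T x) = x
    rw [h, ih]

theorem key559_pow_mul {M : Type} [Field M] (T : M ≃+* M) (x t : M) (h : T x = t * x) (ht : T t = t)
    (n : ℕ) : (T ^ n) x = t ^ n * x := by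
  induction n with
  | zero => show x = _; rw [pow_zero, one_mul]
  | succ n ih =>
    rw [pow_succ]
    show (T ^ n) (T x) = _
    rw [h, map_mul, key559_pow_fix T t ht n, ih, pow_succ]
    ring

theorem key559_exp (l N : ℕ) (hl : l.Prime) (hN : 0 < N) : ∃ K : ℕ, l ^ K ∣ N ∧ ¬ l ^ (K + 1) ∣ N := by
  have hex : ∃ K : ℕ, ¬ l ^ (K + 1) ∣ N := by
    refine ⟨N, fun h => ?_⟩
    have h1 := Nat.le_of_dvd hN h
    have h2 : N < l ^ (N + 1) := lt_trans (Nat.lt_succ_self N)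
      (Nat.lt_pow_self hl.one_lt)
    omega
  classical
  refine ⟨Nat.find hex, ?_, Nat.find_spec hex⟩
  rcases Nat.eq_zero_or_pos (Nat.find hex) with h0 | h0
  · rw [h0, pow_zero]; exact one_dvd _
  · have := Nat.find_min hex (Nat.sub_lt h0 Nat.one_pos)
    push Not at this
    rwa [Nat.sub_add_cancel h0] at this

theorem key559_expZ (l : ℕ) (n : ℕ) (j : ℤ) (h : ¬ (l : ℤ) ^ n ∣ j) :
    ∃ v : ℕ, v < n ∧ (l : ℤ) ^ v ∣ j ∧ ¬ (l : ℤ) ^ (v + 1) ∣ j := by
  induction n with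
  | zero => exact absurd (by rw [pow_zero]; exact one_dvd _) h
  | succ n ih =>
    by_cases h1 : (l : ℤ) ^ n ∣ j
    · exact ⟨n, Nat.lt_succ_self n, h1, h⟩
    · obtain ⟨v, h2, h3, h4⟩ := ih h1
      exact ⟨v, h2.trans (Nat.lt_succ_self n), h3, h4⟩

theorem t_KEY (EX : S_EX) (POW : S_POW) (FROB : S_FROB) (K1 : S_K1) (K2 : S_K2) (K3 : S_K3) :
    S_KEY := by
  intro M _ l q th T Ph U hT r m k α j z y hrm hmk hα hz hz1 hTz hPz hy hE hj
  have hl : l.Prime := hT.prime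
  have hz0 : z ≠ 0 := hT.ne_zero z hz
  obtain ⟨f, hf, hfy, hfk⟩ := FROB M l q th T Ph U hT m k z y hz0 hy hPz
  have hT' := POW M l q th T Ph U hT f hf
  have hq' : 2 ≤ q ^ f := hT'.two
  obtain ⟨K, hK1, hK2⟩ := key559_exp l (q ^ f - 1) hl (by omega)
  have hkK : k ≤ K := by
    by_contra hc
    exact hK2 (dvd_trans (pow_dvd_pow l (by omega)) hfk)
  have hmK : m ≤ K := hmk.trans hkK
  -- the automorphism
  have hS : ∀ i, (T ^ l ^ (m - r)) (th i) = th i := fun i => key559_pow_fix T _ (hT.T_fix i) _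
  have hyU : y ∈ U := hT.of_pow y m (by rw [hy]; exact hz)
  have hy1U : 1 - y ∈ U := by
    have := hT.one_sub y hyU m (by rw [hy]; exact hz1) 0
    rwa [zpow_zero, one_mul] at this
  have hSy : (T ^ l ^ (m - r)) y = y := by
    have h1 := hE m y hy
    have h2 : T (th m ^ ((l : ℤ) ^ r * α m)) = th m ^ ((l : ℤ) ^ r * α m) := by
      rw [map_zpow₀, hT.T_fix]
    rw [key559_pow_mul T y _ h1 h2]
    have h3 : (th m ^ ((l : ℤ) ^ r * α m)) ^ l ^ (m - r) = 1 := by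
      rw [← zpow_natCast, ← zpow_mul]
      have h4 : (l : ℤ) ^ r * α m * ((l ^ (m - r) : ℕ) : ℤ) = ((l ^ m : ℕ) : ℤ) * α m := by
        push_cast
        have : (l : ℤ) ^ m = (l : ℤ) ^ r * (l : ℤ) ^ (m - r) := by
          rw [← pow_add]; congr 1; omega
        rw [this]; ring
      rw [h4, zpow_mul, zpow_natCast, (hT.prim m).pow_eq_one, one_zpow]
    rw [h3, one_mul]
  have hS1y : (T ^ l ^ (m - r)) (1 - y) = 1 - y := by rw [map_sub, map_one, hSy]
  obtain ⟨e1, e2, e3, e4, e5, e6⟩ := EX M l q th T Ph U hT (T ^ l ^ (m - r)) hS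
  obtain ⟨g1, g2, g3, g4, g5, g6⟩ := EX M l q th T Ph U hT T hT.T_fix
  obtain ⟨j', hj'⟩ := e1 (1 - y) hy1U hS1y K
  have hjk : Ex (T ^ l ^ (m - r)) th l k (1 - y) j' := by
    apply e6 (1 - y) hy1U k (K - k) j'
    rw [Nat.add_sub_cancel' hkK]
    exact hj'
  have hjj : (l : ℤ) ^ (m - r) ∣ j - j' :=
    dvd_trans (pow_dvd_pow _ (by omega)) (e2 (1 - y) hy1U k j j' hj hjk)
  by_cases hdiv : (l : ℤ) ^ (m - r) ∣ j'
  · left
    have := dvd_add hjj hdiv
    rwa [sub_add_cancel] at this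
  right
  obtain ⟨v, hv1, hv2, hv3⟩ := key559_expZ l (m - r) j' hdiv
  -- level `m + K`
  have hlev : Ex T th l m z (l ^ r * α (m + K)) := g6 z hz m K _ (hE (m + K))
  have hαα : (l : ℤ) ^ (m - r) ∣ α (m + K) - α m := by
    have h1 := g2 z hz m _ _ hlev (hE m)
    rw [← mul_sub] at h1
    have h2 : (l : ℤ) ^ m = (l : ℤ) ^ r * (l : ℤ) ^ (m - r) := by
      rw [← pow_add]; congr 1; omega
    rw [h2] at h1
    exact (mul_dvd_mul_iff_left (pow_ne_zero _ (by exact_mod_cast hl.ne_zero))).1 h1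
  obtain ⟨x', hx'U, hx'S, hx'P, hx'e⟩ := K1 M l (q ^ f) th T (Ph ^ f) U hT' r m K (α (m + K)) j' z y
    hrm hmK (hα _) hz hz1 hTz hy hfy hK1 hlev hj'
  have h3 := K3 M l q th T Ph U hT r m K (α (m + K)) j' z y hrm (hα _) hz hz1 hTz hy (hE (m + K)) hj'
  have hne1 : th m ^ ((l : ℤ) ^ r * α (m + K)) ≠ 1 := by
    intro hc
    have h4 := ((hT.prim m).zpow_eq_one_iff_dvd _).1 hc
    have h2 : ((l ^ m : ℕ) : ℤ) = (l : ℤ) ^ r * (l : ℤ) ^ (m - r) := by
      push_cast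
      rw [← pow_add]; congr 1; omega
    rw [h2] at h4
    have h5 := (mul_dvd_mul_iff_left (pow_ne_zero _ (by exact_mod_cast hl.ne_zero))).1 h4
    exact hα (m + K) (dvd_trans (dvd_pow_self _ (by omega)) h5)
  have hwU : 1 - x' ^ l ^ K ∈ U := by
    rw [hx'e]
    exact hT.mul _ (hT.mul _ (hT.const m _ hne1).1 _ hyU) _ (hT.inv _ hy1U)
  have hc : ¬ (l : ℤ) ^ (K + 1 - (m - r - v)) ∣ j' * (((q ^ f - 1) / l ^ (m - r) : ℕ) : ℤ) := by
    intro hcon
    obtain ⟨w, hw⟩ := hv2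
    obtain ⟨N, hN⟩ := hK1
    have hlw : ¬ (l : ℤ) ∣ w := by
      intro h
      apply hv3
      rw [hw, pow_succ]
      exact mul_dvd_mul_left _ h
    have hlN : ¬ l ∣ N := by
      intro h
      apply hK2
      rw [hN, pow_succ]
      exact mul_dvd_mul_left _ h
    have hh : (q ^ f - 1) / l ^ (m - r) = l ^ (K - (m - r)) * N := by
      rw [hN]
      have : l ^ K = l ^ (m - r) * l ^ (K - (m - r)) := by
        rw [← pow_add]; congr 1; omega
      rw [this, mul_assoc, Nat.mul_div_cancel_left _ (pow_pos hl.pos _)]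
    rw [hh, hw] at hcon
    have h6 : (l : ℤ) ^ v * w * ((l ^ (K - (m - r)) * N : ℕ) : ℤ) =
        (l : ℤ) ^ (K - (m - r - v)) * (w * N) := by
      have h7 : (l : ℤ) ^ (K - (m - r - v)) = (l : ℤ) ^ v * (l : ℤ) ^ (K - (m - r)) := by
        rw [← pow_add]; congr 1; omega
      rw [h7]
      push_cast
      ring
    have h8 : K + 1 - (m - r - v) = K - (m - r - v) + 1 := by omega
    rw [h6, h8, pow_succ] at hcon
    have h9 := (mul_dvd_mul_iff_left (pow_ne_zero _ (by exact_mod_cast hl.ne_zero))).1 hcon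
    rcases (Nat.prime_iff_prime_int.1 hl).dvd_or_dvd h9 with h10 | h10
    · exact hlw h10
    · exact hlN (by exact_mod_cast h10)
  rw [← hx'e] at h3
  have h4 := K2 M l (q ^ f) th T (Ph ^ f) U hT' (l ^ (m - r)) K (m - r - v)
    (j' * (((q ^ f - 1) / l ^ (m - r) : ℕ) : ℤ)) (α (m + K) - j') x' hx'U hwU hx'S hx'P hK1
    (by omega) hc h3
  have hv0 : v = 0 := by
    by_contra hv0
    have h5 : (l : ℤ) ∣ j' := dvd_trans (dvd_pow_self _ hv0) hv2
    have h6 : (l : ℤ) ∣ α (m + K) - j' := dvd_trans (dvd_pow_self _ (by omega)) h4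
    have h7 := dvd_add h6 h5
    rw [sub_add_cancel] at h7
    exact hα _ h7
  rw [hv0, Nat.sub_zero] at h4
  have h5 : j - α m = (j - j') - (α (m + K) - j') + (α (m + K) - α m) := by ring
  rw [h5]
  exact dvd_add (dvd_sub hjj h4) hαα

end Pool.Agent.U36.TS
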